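import Pool.Agent.helper69.DH.SpecR

set_option autoImplicit false

open Filter Topology MeasureTheory
open scoped commutatorElement

namespace Pool.Agent.helper90.DH

open Pool.Agent.helper64.D2

theorem rBAS_pw (s t : ℕ) (h : t ≤ s) : (2 : ℝ) ^ s = 2 ^ t * 2 ^ (s - t) := by
  rw [← pow_add]; congr 1; omega

theorem rBAS_pz (s t : ℕ) (h : t ≤ s) : (2 : ℤ) ^ s = 2 ^ t * 2 ^ (s - t) := by
  rw [← pow_add]; congr 1; omega

theorem rBAS_1 (s : ℕ) (x : ℝ) : rlp s (ci s x) ≤ x ∧ x < rlp s (ci s x) + 1 / 2 ^ s ∧ |2 ^ s * x - (ci s x : ℝ)| ≤ 1 := by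
  have hp : (0 : ℝ) < 2 ^ s := by positivity
  have h1 := Int.floor_le ((2 : ℝ) ^ s * x)
  have h2 := Int.lt_floor_add_one ((2 : ℝ) ^ s * x)
  unfold rlp ci
  refine ⟨?_, ?_, ?_⟩
  · rw [div_le_iff₀ hp]; linarith
  · rw [← add_div, lt_div_iff₀ hp]; linarith
  · rw [abs_le]; constructor <;> linarith

theorem rBAS_6 (s : ℕ) (m : ℤ) (x : ℝ) : ci s x = m ↔ rlp s m ≤ x ∧ x < rlp s m + 1 / 2 ^ s := by
  have hp : (0 : ℝ) < 2 ^ s := by positivity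
  unfold rlp ci
  rw [Int.floor_eq_iff, div_le_iff₀ hp, ← add_div, lt_div_iff₀ hp, mul_comm x]

theorem rBAS_2 (s t : ℕ) (x : ℝ) (h : t ≤ s) : ci t x = ci s x / 2 ^ (s - t) := by
  have hp : (0 : ℝ) < 2 ^ (s - t) := by positivity
  have hpz : (0 : ℤ) < 2 ^ (s - t) := by positivity
  have h2 := rBAS_pw s t h
  apply le_antisymm
  · rw [Int.le_ediv_iff_mul_le hpz]
    unfold ci
    rw [Int.le_floor]
    push_cast
    rw [h2]
    have h1 := Int.floor_le ((2 : ℝ) ^ t * x)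
    calc (⌊(2 : ℝ) ^ t * x⌋ : ℝ) * 2 ^ (s - t) ≤ (2 ^ t * x) * 2 ^ (s - t) := mul_le_mul_of_nonneg_right h1 hp.le
      _ = 2 ^ t * 2 ^ (s - t) * x := by ring
  · show ci s x / 2 ^ (s - t) ≤ ⌊(2 : ℝ) ^ t * x⌋
    rw [Int.le_floor]
    have h3 : (ci s x / 2 ^ (s - t)) * 2 ^ (s - t) ≤ ci s x := Int.ediv_mul_le _ hpz.ne'
    have h4 : (((ci s x / 2 ^ (s - t)) * 2 ^ (s - t) : ℤ) : ℝ) ≤ (ci s x : ℝ) := by exact_mod_cast h3
    have h5 : (ci s x : ℝ) ≤ 2 ^ s * x := Int.floor_le _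
    push_cast at h4
    rw [h2] at h5
    have h6 : ((ci s x / 2 ^ (s - t) : ℤ) : ℝ) * 2 ^ (s - t) ≤ (2 ^ t * x) * 2 ^ (s - t) := by
      calc _ ≤ (ci s x : ℝ) := h4
        _ ≤ 2 ^ t * 2 ^ (s - t) * x := h5
        _ = _ := by ring
    exact le_of_mul_le_mul_right h6 hp

theorem rBAS_3 (s t : ℕ) (m : ℤ) (h : t ≤ s) : rlp t (m / 2 ^ (s - t)) ≤ rlp s m ∧ rlp s m < rlp t (m / 2 ^ (s - t)) + 1 / 2 ^ t := by
  have hpt : (0 : ℝ) < 2 ^ t := by positivity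
  have hp : (0 : ℝ) < 2 ^ (s - t) := by positivity
  have hpz : (0 : ℤ) < 2 ^ (s - t) := by positivity
  have h2 := rBAS_pw s t h
  have h3 : (m / 2 ^ (s - t)) * 2 ^ (s - t) ≤ m := Int.ediv_mul_le _ hpz.ne'
  have h4 : m < (m / 2 ^ (s - t) + 1) * 2 ^ (s - t) := by
    have := Int.lt_ediv_add_one_mul_self m hpz
    exact this
  have h3' : ((m / 2 ^ (s - t) : ℤ) : ℝ) * 2 ^ (s - t) ≤ (m : ℝ) := by exact_mod_cast h3
  have h4' : (m : ℝ) < (((m / 2 ^ (s - t) : ℤ) : ℝ) + 1) * 2 ^ (s - t) := by exact_mod_cast h4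
  unfold rlp
  rw [h2]
  constructor
  · rw [div_le_div_iff₀ hpt (by positivity)]
    nlinarith
  · rw [← add_div, div_lt_div_iff₀ (by positivity) hpt]
    nlinarith

theorem rBAS_4 (s r t : ℕ) (m : ℤ) (h1 : t ≤ r) (h2 : r ≤ s) : m / 2 ^ (s - r) / 2 ^ (r - t) = m / 2 ^ (s - t) := by
  rw [Int.ediv_ediv_of_nonneg (by positivity), ← pow_add]
  congr 2; omega

theorem rBAS_5 (s : ℕ) (m : ℤ) : ci s (rlp s m) = m ∧ m / 2 ^ (s - s) = m := by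
  constructor
  · rw [rBAS_6]
    exact ⟨le_rfl, by have : (0 : ℝ) < 1 / 2 ^ s := by positivity
                      linarith⟩
  · rw [Nat.sub_self, pow_zero, Int.ediv_one]

theorem rBAS_7 (s t : ℕ) (m : ℤ) (h : t ≤ s) : (m / 2 ^ (s - t) ∈ rTg t ↔ m ∈ rTg s) ∧ (5 ≤ t → (m / 2 ^ (s - t) ∈ rSg t ↔ m ∈ rSg s)) := by
  have hpz : (0 : ℤ) < 2 ^ (s - t) := by positivity
  have h2 := rBAS_pz s t h
  constructor
  · unfold rTg
    rw [Finset.mem_Ico, Finset.mem_Ico, Int.le_ediv_iff_mul_le hpz, Int.ediv_lt_iff_lt_mul hpz, h2]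
    rw [neg_mul, mul_assoc]
  · intro h5
    unfold rSg
    have h3 : (2 : ℤ) ^ (s - 5) = 2 ^ (t - 5) * 2 ^ (s - t) := by
      rw [← pow_add]; congr 1; omega
    rw [Finset.mem_Ico, Finset.mem_Ico, Int.le_ediv_iff_mul_le hpz, Int.ediv_lt_iff_lt_mul hpz, h3]
    rw [mul_assoc, mul_assoc]

theorem rBAS_8 (s : ℕ) (x : ℝ) (h5 : 5 ≤ s) (hx : x ∈ Set.Ico (9 / 32 : ℝ) (23 / 32)) : ci s x ∈ rSg s := by
  have h2 : (2 : ℝ) ^ s = 32 * 2 ^ (s - 5) := by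
    have := rBAS_pw s 5 h5
    rw [this]; norm_num
  have hp : (0 : ℝ) < 2 ^ (s - 5) := by positivity
  unfold rSg ci
  rw [Finset.mem_Ico, Int.le_floor, Int.floor_lt]
  push_cast
  rw [h2]
  constructor
  · nlinarith [hx.1]
  · nlinarith [hx.2]

theorem rBAS_9 (s : ℕ) (n : ℤ) (h5 : 5 ≤ s) (hn : n ∈ rSg s) : n ∈ rTg s ∧ 9 / 32 ≤ rlp s n ∧ rlp s n < 23 / 32 := by
  have h2 : (2 : ℝ) ^ s = 32 * 2 ^ (s - 5) := by
    have := rBAS_pw s 5 h5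
    rw [this]; norm_num
  have h2z : (2 : ℤ) ^ s = 32 * 2 ^ (s - 5) := by
    have := rBAS_pz s 5 h5
    rw [this]; norm_num
  have hp : (0 : ℝ) < 2 ^ (s - 5) := by positivity
  have hpz : (0 : ℤ) < 2 ^ (s - 5) := by positivity
  unfold rSg at hn
  rw [Finset.mem_Ico] at hn
  obtain ⟨h3, h4⟩ := hn
  have h3' : 9 * (2 : ℝ) ^ (s - 5) ≤ (n : ℝ) := by exact_mod_cast h3
  have h4' : (n : ℝ) < 23 * (2 : ℝ) ^ (s - 5) := by exact_mod_cast h4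
  refine ⟨?_, ?_, ?_⟩
  · unfold rTg
    rw [Finset.mem_Ico, h2z]
    constructor <;> linarith
  · unfold rlp
    rw [h2, le_div_iff₀ (by positivity)]
    linarith
  · unfold rlp
    rw [h2, div_lt_iff₀ (by positivity)]
    linarith

theorem rBAS_10 (s : ℕ) (x : ℝ) (h1 : -1 ≤ x) (h2 : x < 2) : ci s x ∈ rTg s := by
  have hp : (0 : ℝ) < 2 ^ s := by positivity
  unfold rTg ci
  rw [Finset.mem_Ico, Int.le_floor, Int.floor_lt]
  push_cast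
  constructor <;> nlinarith

theorem rBAS : rBAS_stmt :=
  ⟨rBAS_1, rBAS_2, rBAS_3, rBAS_4, rBAS_5, rBAS_6, rBAS_7, rBAS_8, rBAS_9, rBAS_10⟩

end Pool.Agent.helper90.DH
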