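import Pool.Agent.helper69.DH.SpecR2

set_option autoImplicit false

open Filter Topology MeasureTheory
open scoped commutatorElement

namespace Pool.Agent.helper90.DH

open Pool.Agent.helper64.D2

theorem rMXD_cellreal (s : ℕ) (k : ℤ) : volume.real (cell s k) = 1 / 2 ^ s := by
  unfold cell
  have hp : (0 : ℝ) < 2 ^ s := by positivity
  rw [Real.volume_real_Ico_of_le]
  · field_simp
    ring
  · gcongr; linarith

theorem rMXD_cellfin (s : ℕ) (k : ℤ) : volume (cell s k) ≠ ⊤ := by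
  unfold cell
  rw [Real.volume_Ico]
  exact ENNReal.ofReal_ne_top

theorem rMXD_card (hBAS : rBAS_stmt) (ell s0 s : ℕ) (A : Finset ℤ) (d : ℝ) (h1 : ell ≤ s0) (h2 : s0 ≤ s) (h6 : 6 ≤ 2 ^ (s - ell))
    (hd : ∀ κ : ℤ, (rcw ell s κ A : ℝ) ≤ d) (k : ℤ) :
    (((rpl A).filter (fun m => m / 2 ^ (s - s0) = k)).card : ℝ) ≤ 39 * d := by
  obtain ⟨-, -, -, b4, -⟩ := hBAS
  set κ : ℤ := k / 2 ^ (s0 - ell) with hκ
  have hM : (0 : ℤ) < 2 ^ (s - ell) := by positivity
  have h6z : (6 : ℤ) ≤ 2 ^ (s - ell) := by exact_mod_cast h6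
  have hsub : (rpl A).filter (fun m => m / 2 ^ (s - s0) = k) ⊆
      (({κ - 1, κ, κ + 1} : Finset ℤ).biUnion (fun κ' => (A.filter (fun n => n / 2 ^ (s - ell) = κ')).biUnion (fun n => Finset.Icc (n - 6) (n + 6)))) := by
    intro m hm
    obtain ⟨hmr, hmk⟩ := Finset.mem_filter.1 hm
    unfold rpl at hmr
    obtain ⟨n, hn, hmn⟩ := Finset.mem_biUnion.1 hmr
    rw [Finset.mem_Icc] at hmn
    have hmκ : m / 2 ^ (s - ell) = κ := by
      rw [hκ, ← hmk]
      exact (b4 s s0 ell m h1 h2).symm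
    have e1 : κ - 1 ≤ n / 2 ^ (s - ell) := by
      rw [Int.le_ediv_iff_mul_le hM, sub_mul, one_mul]
      have := Int.ediv_mul_le m hM.ne'
      rw [hmκ] at this
      linarith [hmn.2]
    have e2 : n / 2 ^ (s - ell) ≤ κ + 1 := by
      have e3 : n / 2 ^ (s - ell) < κ + 2 := by
        rw [Int.ediv_lt_iff_lt_mul hM]
        have := Int.lt_ediv_add_one_mul_self m hM
        rw [hmκ] at this
        nlinarith [hmn.1]
      linarith
    rw [Finset.mem_biUnion]
    refine ⟨n / 2 ^ (s - ell), ?_, ?_⟩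
    · simp only [Finset.mem_insert, Finset.mem_singleton]
      omega
    · rw [Finset.mem_biUnion]
      exact ⟨n, Finset.mem_filter.2 ⟨hn, rfl⟩, Finset.mem_Icc.2 hmn⟩
  have hc1 : ∀ κ' : ℤ, (((A.filter (fun n => n / 2 ^ (s - ell) = κ')).biUnion (fun n => Finset.Icc (n - 6) (n + 6))).card : ℝ) ≤ 13 * d := by
    intro κ'
    have h3 : ((A.filter (fun n => n / 2 ^ (s - ell) = κ')).biUnion (fun n => Finset.Icc (n - 6) (n + 6))).card ≤
        ∑ n ∈ A.filter (fun n => n / 2 ^ (s - ell) = κ'), 13 := by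
      refine le_trans Finset.card_biUnion_le (Finset.sum_le_sum fun n _ => ?_)
      rw [Int.card_Icc]
      omega
    rw [Finset.sum_const, smul_eq_mul] at h3
    have h4 : (((A.filter (fun n => n / 2 ^ (s - ell) = κ')).biUnion (fun n => Finset.Icc (n - 6) (n + 6))).card : ℝ) ≤
        ((A.filter (fun n => n / 2 ^ (s - ell) = κ')).card * 13 : ℕ) := by exact_mod_cast h3
    have h5 := hd κ'
    unfold rcw at h5
    push_cast at h4
    linarith
  have h7 : (((rpl A).filter (fun m => m / 2 ^ (s - s0) = k)).card : ℝ) ≤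
      ((∑ κ' ∈ ({κ - 1, κ, κ + 1} : Finset ℤ), ((A.filter (fun n => n / 2 ^ (s - ell) = κ')).biUnion (fun n => Finset.Icc (n - 6) (n + 6))).card : ℕ) : ℝ) := by
    exact_mod_cast le_trans (Finset.card_le_card hsub) Finset.card_biUnion_le
  have hd0 : 0 ≤ d := le_trans (Nat.cast_nonneg _) (hd 0)
  have h8 : ((∑ κ' ∈ ({κ - 1, κ, κ + 1} : Finset ℤ), ((A.filter (fun n => n / 2 ^ (s - ell) = κ')).biUnion (fun n => Finset.Icc (n - 6) (n + 6))).card : ℕ) : ℝ) ≤
      ∑ κ' ∈ ({κ - 1, κ, κ + 1} : Finset ℤ), 13 * d := by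
    push_cast
    exact Finset.sum_le_sum fun κ' _ => hc1 κ'
  have h9 : ∑ κ' ∈ ({κ - 1, κ, κ + 1} : Finset ℤ), 13 * d ≤ 39 * d := by
    rw [Finset.sum_const, nsmul_eq_mul]
    have h10 : (({κ - 1, κ, κ + 1} : Finset ℤ).card : ℝ) ≤ 3 := by
      exact_mod_cast Finset.card_le_three
    nlinarith
  linarith

theorem rMXD (hBAS : rBAS_stmt) : rMXD_stmt := by
  intro ell s0 s A d h1 h2 h6 hd k
  have hcard := rMXD_card hBAS ell s0 s A d h1 h2 h6 hd k
  obtain ⟨-, b2, -, -, -, b6, -⟩ := hBAS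
  have hp : (0 : ℝ) < 2 ^ s := by positivity
  have hsub : UC s (rpl A) ∩ cell s0 k ⊆ ⋃ m ∈ (rpl A).filter (fun m => m / 2 ^ (s - s0) = k), cell s m := by
    rintro x ⟨hx1, hx2⟩
    have hk : ci s0 x = k := by
      rw [b6]
      unfold cell at hx2
      unfold rlp
      exact ⟨hx2.1, by rw [← add_div]; exact hx2.2⟩
    rw [Set.mem_iUnion₂]
    refine ⟨ci s x, Finset.mem_filter.2 ⟨hx1, ?_⟩, ?_⟩
    · rw [← hk]
      exact (b2 s s0 x h2).symm
    · obtain ⟨h3, h4⟩ := (b6 s (ci s x) x).1 rfl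
      unfold rlp at h3 h4
      exact ⟨h3, by rw [add_div]; exact h4⟩
  have hfin : volume (⋃ m ∈ (rpl A).filter (fun m => m / 2 ^ (s - s0) = k), cell s m) ≠ ⊤ := by
    refine (lt_of_le_of_lt (measure_biUnion_finset_le _ _) ?_).ne
    exact ENNReal.sum_lt_top.2 fun m _ => (rMXD_cellfin s m).lt_top
  calc volume.real (UC s (rpl A) ∩ cell s0 k)
      ≤ volume.real (⋃ m ∈ (rpl A).filter (fun m => m / 2 ^ (s - s0) = k), cell s m) := measureReal_mono hsub hfin
    _ ≤ ∑ m ∈ (rpl A).filter (fun m => m / 2 ^ (s - s0) = k), volume.real (cell s m) := measureReal_biUnion_finset_le _ _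
    _ = (((rpl A).filter (fun m => m / 2 ^ (s - s0) = k)).card : ℝ) * (1 / 2 ^ s) := by
        rw [Finset.sum_congr rfl (fun m _ => rMXD_cellreal s m), Finset.sum_const, nsmul_eq_mul]
    _ ≤ 39 * d * (1 / 2 ^ s) := mul_le_mul_of_nonneg_right hcard (by positivity)
    _ = 39 * d / 2 ^ s := by ring

end Pool.Agent.helper90.DH
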